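import Pool.Agent.H30Z.LA.Main

/-!
# `ℵ_α`-amalgamation is not absolute for transitive models of ZFC + GCH

`CTM` (countable transitive model of ZFC) is defined in `Pool.Agent.Helper212.CohenE.Defs`,
`IsInj`, `IsBij`, `CtbleIn` in `Pool.Agent.H30Z.AP.Defs`, the rest in `Pool.Agent.H30Z.LA.Defs`.
Here `V = L_β[a]`, `W = L_β[a, c]` with `c` Cohen generic; the models of the sentence of an
uncountable size fail amalgamation exactly when every real is constructible from `a`.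
-/

namespace Pool.Agent.Results.MP_fbd45d_lc.NonAbsolute

open CohenE Pool.Agent.H30Z.AP Pool.Agent.H30Z.LA

/-- For every countable ordinal `α ≠ 0` there are transitive models `V ⊆ W` of ZFC + GCH with the
same ordinals, in which `α` is countable, and an `L_{ω₁,ω}`-sentence `φ ∈ V` whose models of size
`ℵ_α` fail amalgamation in `V` and satisfy amalgamation in `W`. -/
theorem result (α : ZFSet.{0}) (hα : α.IsOrdinal) (h0 : α ≠ ∅)
    (hc : ∃ f, IsInj f α ZFSet.omega) :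
    ∃ V W : Set ZFSet.{0}, CTM V ∧ CTM W ∧ GCH V ∧ GCH W ∧ V ⊆ W ∧
      (∀ x : ZFSet.{0}, x.IsOrdinal → (x ∈ V ↔ x ∈ W)) ∧ α ∈ V ∧ CtbleIn V α ∧ CtbleIn W α ∧
      (∃ κ, IsAleph V α κ) ∧ (∃ κ, IsAleph W α κ) ∧
      ∃ φ : LF, Clo 0 φ ∧ cod φ ∈ V ∧ (∀ κ, IsAleph V α κ → ¬ Amalg V φ κ) ∧
        ∀ κ, IsAleph W α κ → Amalg W φ κ :=
  main α hα h0 hc

end Pool.Agent.Results.MP_fbd45d_lc.NonAbsolute
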